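import Pool.Agent.MP_3a21c3_co.Mg.NoCut

/-! Disproof of Q1, already for domes: a roof `P` over a rectangle `X` and a lower roof `D ⊆ P`
over the same base for which no admissible cutting sequence leads from `P` to `D`. -/

namespace Pool.Agent.Results.MP_3a21c3_co.DomeCounterexample

open Pool.Agent.MP_3a21c3_co

theorem result : ∃ P X D : Set (Fin 3 → ℝ),
    IsPolyhedron P ∧ IsFace 2 P X ∧ IsGDome D X ∧ D ⊆ P ∧ IsDome P X ∧ IsDome D X ∧
      ¬ Relation.ReflTransGen (PyramidCut X D) P D := by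
  have hP : IsDome (convexHull ℝ (roofV 3 3)) (convexHull ℝ baseV) :=
    roof_dome (by norm_num) (by norm_num) (by norm_num) (by norm_num)
  have hD : IsDome (convexHull ℝ (roofV 2 4)) (convexHull ℝ baseV) :=
    roof_dome (by norm_num) (by norm_num) (by norm_num) (by norm_num)
  refine ⟨_, _, _, hP.1, hP.2.1, ⟨hD.1, hD.2.1, fun F hF hne => ?_⟩, inner_subset, hP, hD,
    not_reach⟩
  obtain ⟨C, hC⟩ := hD.2.2 F hF hne
  exact ⟨C, Or.inl hC⟩

end Pool.Agent.Results.MP_3a21c3_co.DomeCounterexample
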