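import Pool.Agent.MP_3a21c3_co.Mg.Skew

/-! A g-dome `D ⊆ P` with base `X` that no finite sequence of cuts by planes through edges of `X`
(missing the interior of `D`) carves out of `P`, whatever the shape of the removed pieces. -/

namespace Pool.Agent.Results.MP_3a21c3_co.UnreachableGDome

open Pool.Agent.MP_3a21c3_co

theorem result : ∃ P X D : Set (Fin 3 → ℝ),
    IsPolyhedron P ∧ IsFace 2 P X ∧ IsGDome D X ∧ D ⊆ P ∧
      ¬ Relation.ReflTransGen (fun A A' => ∃ Q, CutOff X D A Q A') P D :=
  ⟨_, _, _, roof_polyhedron (s := 3) (r := 3) (by norm_num), roof_base (by norm_num), skew_gdome,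
    skew_subset, skew_not_reach⟩

end Pool.Agent.Results.MP_3a21c3_co.UnreachableGDome
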